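import Pool.Agent.Helper20.EP.Spec3

/-!
# EP: EK2, second moments
-/

set_option autoImplicit false

open Polynomial Filter Topology

namespace Pool.Agent.Helper14.EP

open Pool.Agent.Helper20.EP

theorem ek2 : S_EK2 := by
  intro Ω v P lam hl hQ
  set X : ℕ → ℕ → ℝ := fun p n => if (p : ℤ) ∣ v n then 1 else 0 with hX
  set E : ℝ := Ω.card / (1 + (P.card : ℝ)) ^ 2 with hEdef
  have hE : 0 ≤ E := by positivity
  have hXX : ∀ p n, X p n * X p n = X p n := by
    intro p n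
    simp only [hX]
    split_ifs <;> simp
  have hW : ∀ n, ((P.filter fun p : ℕ => (p : ℤ) ∣ v n).card : ℝ) = ∑ p ∈ P, X p n := by
    intro n
    simp only [hX]
    rw [Finset.sum_boole]
  have hA1 : ∀ p ∈ P, |∑ n ∈ Ω, X p n - Ω.card * lam p| ≤ E := by
    intro p hp
    have h := hQ {p} (by simpa using hp) (by simp)
    have e : ((Ω.filter fun n => ∀ q ∈ ({p} : Finset ℕ), (q : ℤ) ∣ v n).card : ℝ) =
        ∑ n ∈ Ω, X p n := by
      simp only [hX]
      rw [Finset.sum_boole]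
      simp
    rw [e, Finset.prod_singleton] at h
    exact h
  have hA2 : ∀ p ∈ P, ∀ p' ∈ P, p ≠ p' →
      |∑ n ∈ Ω, X p n * X p' n - Ω.card * (lam p * lam p')| ≤ E := by
    intro p hp p' hp' hne
    have h := hQ {p, p'} (by
      intro x hx
      simp only [Finset.mem_insert, Finset.mem_singleton] at hx
      rcases hx with rfl | rfl
      · exact hp
      · exact hp') Finset.card_le_two
    have e : ((Ω.filter fun n => ∀ q ∈ ({p, p'} : Finset ℕ), (q : ℤ) ∣ v n).card : ℝ) =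
        ∑ n ∈ Ω, X p n * X p' n := by
      have e2 : ∀ n ∈ Ω, X p n * X p' n = if ((p : ℤ) ∣ v n ∧ (p' : ℤ) ∣ v n) then 1 else 0 := by
        intro n _
        simp only [hX]
        by_cases h1 : (p : ℤ) ∣ v n <;> by_cases h2 : (p' : ℤ) ∣ v n <;> simp [h1, h2]
      rw [Finset.sum_congr rfl e2, Finset.sum_boole]
      simp
    rw [e, Finset.prod_pair hne] at h
    exact h
  have hpp : ∀ p ∈ P, ∀ p' ∈ P, ∑ n ∈ Ω, (X p n - lam p) * (X p' n - lam p') ≤
      (if p = p' then Ω.card * (lam p * (1 - lam p)) else 0) + 3 * E := by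
    intro p hp p' hp'
    have hex : ∑ n ∈ Ω, (X p n - lam p) * (X p' n - lam p') =
        ∑ n ∈ Ω, X p n * X p' n - lam p' * ∑ n ∈ Ω, X p n - lam p * ∑ n ∈ Ω, X p' n +
          Ω.card * (lam p * lam p') := by
      rw [Finset.mul_sum, Finset.mul_sum, ← Finset.sum_sub_distrib, ← Finset.sum_sub_distrib,
        ← nsmul_eq_mul, ← Finset.sum_const, ← Finset.sum_add_distrib]
      refine Finset.sum_congr rfl fun n _ => ?_
      ring
    rw [hex]
    have h1 := abs_le.1 (hA1 p hp)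
    have h2 := abs_le.1 (hA1 p' hp')
    have l1 := hl p hp
    have l2 := hl p' hp'
    by_cases hne : p = p'
    · subst hne
      rw [if_pos rfl]
      simp only [hXX]
      nlinarith [mul_nonneg hE l1.1, mul_nonneg hE (sub_nonneg.2 l1.2),
        mul_nonneg l1.1 (sub_nonneg.2 h1.1), mul_nonneg l1.1 (sub_nonneg.2 h1.2),
        mul_nonneg (sub_nonneg.2 l1.2) (sub_nonneg.2 h1.1),
        mul_nonneg (sub_nonneg.2 l1.2) (sub_nonneg.2 h1.2)]
    · rw [if_neg hne]
      have h3 := abs_le.1 (hA2 p hp p' hp' hne)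
      nlinarith [mul_nonneg hE l1.1, mul_nonneg hE l2.1, mul_nonneg hE (sub_nonneg.2 l1.2),
        mul_nonneg hE (sub_nonneg.2 l2.2),
        mul_nonneg l1.1 (sub_nonneg.2 h2.1), mul_nonneg l1.1 (sub_nonneg.2 h2.2),
        mul_nonneg l2.1 (sub_nonneg.2 h1.1), mul_nonneg l2.1 (sub_nonneg.2 h1.2)]
  have hsq : ∀ n ∈ Ω, (((P.filter fun p : ℕ => (p : ℤ) ∣ v n).card : ℝ) - ∑ p ∈ P, lam p) ^ 2 =
      ∑ p ∈ P, ∑ p' ∈ P, (X p n - lam p) * (X p' n - lam p') := by
    intro n _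
    rw [hW, ← Finset.sum_sub_distrib, sq, Finset.sum_mul_sum]
  rw [Finset.sum_congr rfl hsq, Finset.sum_comm]
  have hswap : ∑ p ∈ P, ∑ n ∈ Ω, ∑ p' ∈ P, (X p n - lam p) * (X p' n - lam p') =
      ∑ p ∈ P, ∑ p' ∈ P, ∑ n ∈ Ω, (X p n - lam p) * (X p' n - lam p') := by
    refine Finset.sum_congr rfl fun p _ => ?_
    rw [Finset.sum_comm]
  rw [hswap]
  calc ∑ p ∈ P, ∑ p' ∈ P, ∑ n ∈ Ω, (X p n - lam p) * (X p' n - lam p')
      ≤ ∑ p ∈ P, ∑ p' ∈ P, ((if p = p' then Ω.card * (lam p * (1 - lam p)) else 0) + 3 * E) :=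
        Finset.sum_le_sum fun p hp => Finset.sum_le_sum fun p' hp' => hpp p hp p' hp'
    _ = ∑ p ∈ P, (Ω.card * (lam p * (1 - lam p)) + P.card * (3 * E)) := by
        refine Finset.sum_congr rfl fun p hp => ?_
        rw [Finset.sum_add_distrib, Finset.sum_ite_eq, if_pos hp, Finset.sum_const, nsmul_eq_mul]
    _ = Ω.card * ∑ p ∈ P, lam p * (1 - lam p) + 3 * ((P.card : ℝ) ^ 2 * E) := by
        rw [Finset.sum_add_distrib, Finset.sum_const, nsmul_eq_mul, Finset.mul_sum]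
        ring
    _ ≤ Ω.card * (∑ p ∈ P, lam p * (1 - lam p) + 4) := by
        have h1 : (P.card : ℝ) ^ 2 * E ≤ Ω.card := by
          rw [hEdef, mul_div_assoc', div_le_iff₀ (by positivity)]
          have h2 : (P.card : ℝ) ^ 2 ≤ (1 + (P.card : ℝ)) ^ 2 := by
            apply pow_le_pow_left₀ (by positivity)
            linarith
          nlinarith [(Nat.cast_nonneg Ω.card : (0 : ℝ) ≤ Ω.card)]
        have h3 : (0 : ℝ) ≤ Ω.card := Nat.cast_nonneg _
        nlinarith

end Pool.Agent.Helper14.EP
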