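import Pool.Agent.Helper20.EP.Spec1
import Pool.Agent.Helper14.EP.EK2

/-!
# EP: CELLC, the characteristic function in a cell
-/

set_option autoImplicit false

open Polynomial Filter Topology

namespace Pool.Agent.Helper14.EP

open Pool.Agent.Helper20.EP

theorem mem_primesLE {y : ℝ} (hy : 0 ≤ y) {p : ℕ} :
    p ∈ primesLE y ↔ p.Prime ∧ (p : ℝ) ≤ y := by
  unfold primesLE
  rw [Finset.mem_filter, Finset.mem_range, Nat.lt_succ_iff, Nat.le_floor_iff hy]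
  exact and_comm

theorem card_primesLE {y : ℝ} (hy : 0 ≤ y) : ((primesLE y).card : ℝ) ≤ y := by
  have h : primesLE y ⊆ Finset.Icc 1 ⌊y⌋₊ := by
    intro p hp
    unfold primesLE at hp
    rw [Finset.mem_filter, Finset.mem_range] at hp
    rw [Finset.mem_Icc]
    exact ⟨hp.2.one_lt.le, by omega⟩
  have h2 := Finset.card_le_card h
  rw [Nat.card_Icc] at h2
  have h3 : (primesLE y).card ≤ ⌊y⌋₊ := by omega
  calc ((primesLE y).card : ℝ) ≤ (⌊y⌋₊ : ℝ) := by exact_mod_cast h3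
    _ ≤ y := Nat.floor_le hy

theorem prod_le_pow (Q : Finset ℕ) (y : ℝ) (k : ℕ) (hy : 1 ≤ y) (h : ∀ p ∈ Q, (p : ℝ) ≤ y)
    (hk : Q.card ≤ k) : ∏ p ∈ Q, (p : ℝ) ≤ y ^ k := by
  calc ∏ p ∈ Q, (p : ℝ) ≤ ∏ _p ∈ Q, y :=
        Finset.prod_le_prod (fun p _ => Nat.cast_nonneg p) h
    _ = y ^ Q.card := by rw [Finset.prod_const]
    _ ≤ y ^ k := pow_le_pow_right₀ hy hk

theorem lam_nn (F : ℤ[X]) (s : ℤ) (p : ℕ) : 0 ≤ lam F s p := by
  unfold lam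
  positivity

theorem lam_le_one (F : ℤ[X]) (s : ℤ) (p : ℕ) : lam F s p ≤ 1 := by
  unfold lam
  have h : rho (F - C s) p ≤ p := by
    unfold rho
    refine (Finset.card_filter_le _ _).trans ?_
    rw [Finset.card_range]
  apply div_le_one_of_le₀ _ (Nat.cast_nonneg p)
  exact_mod_cast h

/-- From the approximation of the products to the two conclusions. -/
theorem concl (t ε : ℝ) (k : ℕ) (σ₀ δ : ℝ)
    (hmain : ∀ (Ω : Finset ℕ) (v : ℕ → ℤ) (P : Finset ℕ) (lam : ℕ → ℝ), Ω.Nonempty →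
    (∀ p ∈ P, 0 ≤ lam p ∧ lam p ≤ 1) → σ₀ ≤ Real.sqrt (∑ p ∈ P, lam p * (1 - lam p)) →
    (∀ Q ⊆ P, Q.card ≤ k →
      |((Ω.filter fun n => ∀ p ∈ Q, (p : ℤ) ∣ v n).card : ℝ) - Ω.card * ∏ p ∈ Q, lam p| ≤
        δ * Ω.card / (1 + (P.card : ℝ)) ^ k) →
    ‖(∑ n ∈ Ω, Complex.exp (t * Complex.I *
        ((((P.filter fun p : ℕ => (p : ℤ) ∣ v n).card : ℝ) - ∑ p ∈ P, lam p) /
          Real.sqrt (∑ p ∈ P, lam p * (1 - lam p)) : ℝ))) / (Ω.card : ℂ) -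
      Complex.exp (-(t : ℂ) ^ 2 / 2)‖ ≤ ε)
    (Ω : Finset ℕ) (v : ℕ → ℤ) (P : Finset ℕ) (lm : ℕ → ℝ) (hΩ : Ω.Nonempty)
    (hl : ∀ p ∈ P, 0 ≤ lm p ∧ lm p ≤ 1)
    (hs : max σ₀ 2 ≤ Real.sqrt (∑ p ∈ P, lm p * (1 - lm p)))
    (h1 : ∀ Q ⊆ P, Q.card ≤ k →
      |((Ω.filter fun n => ∀ p ∈ Q, (p : ℤ) ∣ v n).card : ℝ) - Ω.card * ∏ p ∈ Q, lm p| ≤
        δ * Ω.card / (1 + (P.card : ℝ)) ^ k)
    (h2 : ∀ Q ⊆ P, Q.card ≤ 2 →
      |((Ω.filter fun n => ∀ p ∈ Q, (p : ℤ) ∣ v n).card : ℝ) - Ω.card * ∏ p ∈ Q, lm p| ≤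
        1 * Ω.card / (1 + (P.card : ℝ)) ^ 2) :
    ‖(∑ n ∈ Ω, Complex.exp (t * Complex.I *
        ((((P.filter fun p : ℕ => (p : ℤ) ∣ v n).card : ℝ) - ∑ p ∈ P, lm p) /
          Real.sqrt (∑ p ∈ P, lm p * (1 - lm p)) : ℝ))) / (Ω.card : ℂ) -
      Complex.exp (-(t : ℂ) ^ 2 / 2)‖ ≤ ε ∧
    ∑ n ∈ Ω, ((((P.filter fun p : ℕ => (p : ℤ) ∣ v n).card : ℝ) - ∑ p ∈ P, lm p) /
          Real.sqrt (∑ p ∈ P, lm p * (1 - lm p))) ^ 2 ≤ 2 * Ω.card := by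
  refine ⟨hmain Ω v P lm hΩ hl ((le_max_left _ _).trans hs) h1, ?_⟩
  have h3 := ek2 Ω v P lm hl (fun Q hQ hc => by simpa using h2 Q hQ hc)
  set V : ℝ := ∑ p ∈ P, lm p * (1 - lm p) with hV
  have hV2 : 2 ≤ Real.sqrt V := (le_max_right _ _).trans hs
  have hV0 : 0 ≤ V := Finset.sum_nonneg fun p hp =>
    mul_nonneg (hl p hp).1 (sub_nonneg.2 (hl p hp).2)
  have hV4 : 4 ≤ V := by
    have := Real.sq_sqrt hV0
    nlinarith
  have e : ∑ n ∈ Ω, ((((P.filter fun p : ℕ => (p : ℤ) ∣ v n).card : ℝ) - ∑ p ∈ P, lm p) /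
          Real.sqrt V) ^ 2 =
      (∑ n ∈ Ω, (((P.filter fun p : ℕ => (p : ℤ) ∣ v n).card : ℝ) - ∑ p ∈ P, lm p) ^ 2) / V := by
    rw [Finset.sum_div]
    refine Finset.sum_congr rfl fun n _ => ?_
    rw [div_pow, Real.sq_sqrt hV0]
  rw [e, div_le_iff₀ (by linarith)]
  have h4 : (0 : ℝ) ≤ Ω.card := Nat.cast_nonneg _
  nlinarith

theorem cellc (hD : S_DIVC) (hE : S_EKU) : S_CELLC := by
  intro D t ε hε
  obtain ⟨k, σ₀, δ, hσ, hδ, hmain⟩ := hE t ε hε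
  set B : ℕ → ℝ := fun j => 2 * (4 * D + 2) * 2 ^ j with hB
  refine ⟨8 + 4 * (k + 2), (B k / δ) ^ 2 + (B 2 / 1) ^ 2, max σ₀ 2, ?_⟩
  intro f N q F M y s hfD hq hF hqM hN₀ hMK hy hyK hN1 hcell hva
  have hM1 : 1 ≤ M := le_trans (by exact_mod_cast hq) hqM
  have hN0 : (1 : ℝ) ≤ N := by exact_mod_cast hN1
  have hcp : (0 : ℝ) < (cell f N q F s).card := by
    by_contra hneg
    have h0 : ((cell f N q F s).card : ℝ) = 0 :=
      le_antisymm (not_lt.1 hneg) (Nat.cast_nonneg _)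
    rw [h0, mul_zero] at hcell
    linarith
  have hne : (cell f N q F s).Nonempty := by
    rw [← Finset.card_pos]
    exact_mod_cast hcp
  have hPc : ((Pq q y).card : ℝ) ≤ y := by
    refine le_trans ?_ (card_primesLE (by linarith : (0 : ℝ) ≤ y))
    unfold Pq
    exact_mod_cast Finset.card_filter_le _ _
  have herr : ∀ (k₀ : ℕ) (δ₀ : ℝ), 0 < δ₀ → k₀ ≤ k + 2 → (B k₀ / δ₀) ^ 2 ≤ N →
      ∀ Q ⊆ Pq q y, Q.card ≤ k₀ →
      |(((cell f N q F s).filter fun n : ℕ => ∀ p ∈ Q, (p : ℤ) ∣ ⌊f.eval (n : ℝ)⌋).card : ℝ) -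
        (cell f N q F s).card * ∏ p ∈ Q, lam F s p| ≤
        δ₀ * (cell f N q F s).card / (1 + ((Pq q y).card : ℝ)) ^ k₀ := by
    intro k₀ δ₀ hδ₀ hk₀ hBN Q hQ hQc
    have hQp : ∀ p ∈ Q, p.Prime ∧ ¬ p ∣ q := by
      intro p hp
      have := hQ hp
      unfold Pq primesLE at this
      simp only [Finset.mem_filter] at this
      exact ⟨this.1.2, this.2⟩
    have hQy : ∀ p ∈ Q, (p : ℝ) ≤ y := by
      intro p hp
      have := hQ hp
      unfold Pq at this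
      rw [Finset.mem_filter, mem_primesLE (by linarith)] at this
      exact this.1.2
    refine (hD f N q F s Q hq hF hQp).trans ?_
    rw [hfD]
    have hprod := prod_le_pow Q y k₀ hy hQy hQc
    rw [le_div_iff₀ (by positivity)]
    have hP1 : (1 + ((Pq q y).card : ℝ)) ^ k₀ ≤ (2 * y) ^ k₀ :=
      pow_le_pow_left₀ (by positivity) (by linarith) _
    -- the main estimate
    have hM3 : 0 < M ^ 3 := by positivity
    have key : B k₀ * M ^ 4 * y ^ (2 * k₀) ≤ δ₀ * N := by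
      have h1 : M ^ 8 * y ^ (4 * k₀) ≤ N := by
        rcases le_total M y with hMy | hyM
        · calc M ^ 8 * y ^ (4 * k₀) ≤ y ^ 8 * y ^ (4 * k₀) := by
                gcongr
            _ = y ^ (8 + 4 * k₀) := by rw [pow_add]
            _ ≤ y ^ (8 + 4 * (k + 2)) := pow_le_pow_right₀ hy (by omega)
            _ ≤ N := hyK
        · calc M ^ 8 * y ^ (4 * k₀) ≤ M ^ 8 * M ^ (4 * k₀) := by
                gcongr
            _ = M ^ (8 + 4 * k₀) := by rw [pow_add]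
            _ ≤ M ^ (8 + 4 * (k + 2)) := pow_le_pow_right₀ hM1 (by omega)
            _ ≤ N := hMK
      have hBn : 0 ≤ B k₀ := by
        simp only [hB]
        positivity
      have h2 : (B k₀ * M ^ 4 * y ^ (2 * k₀)) ^ 2 ≤ (δ₀ * N) ^ 2 := by
        have e1 : (B k₀ * M ^ 4 * y ^ (2 * k₀)) ^ 2 = B k₀ ^ 2 * (M ^ 8 * y ^ (4 * k₀)) := by
          rw [mul_pow, mul_pow, ← pow_mul, ← pow_mul]
          ring_nf
        rw [e1]
        have h3 : B k₀ ^ 2 ≤ N * δ₀ ^ 2 := by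
          rw [div_pow, div_le_iff₀ (by positivity)] at hBN
          exact hBN
        calc B k₀ ^ 2 * (M ^ 8 * y ^ (4 * k₀)) ≤ (N * δ₀ ^ 2) * N := by
              gcongr
          _ = (δ₀ * N) ^ 2 := by ring
      exact (sq_le_sq₀ (by positivity) (by positivity)).1 h2
    have h5 : δ₀ * N ≤ δ₀ * (M ^ 3 * (cell f N q F s).card) := by
      gcongr
    have h6 : 2 * (4 * (D : ℝ) + 2) * q * (∏ p ∈ Q, (p : ℝ)) *
        (1 + ((Pq q y).card : ℝ)) ^ k₀ * M ^ 3 ≤ B k₀ * M ^ 4 * y ^ (2 * k₀) := by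
      calc 2 * (4 * (D : ℝ) + 2) * q * (∏ p ∈ Q, (p : ℝ)) *
            (1 + ((Pq q y).card : ℝ)) ^ k₀ * M ^ 3
          ≤ 2 * (4 * (D : ℝ) + 2) * M * (y ^ k₀) * (2 * y) ^ k₀ * M ^ 3 := by
            gcongr
        _ = B k₀ * M ^ 4 * y ^ (2 * k₀) := by
            simp only [hB]
            rw [mul_pow, two_mul k₀, pow_add]
            ring
    have h7 : (2 * (4 * (D : ℝ) + 2) * q * (∏ p ∈ Q, (p : ℝ)) *
        (1 + ((Pq q y).card : ℝ)) ^ k₀) * M ^ 3 ≤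
        (δ₀ * (cell f N q F s).card) * M ^ 3 := by
      calc _ ≤ B k₀ * M ^ 4 * y ^ (2 * k₀) := h6
        _ ≤ δ₀ * N := key
        _ ≤ δ₀ * (M ^ 3 * (cell f N q F s).card) := h5
        _ = _ := by ring
    exact le_of_mul_le_mul_right h7 hM3
  have hc := concl t ε k σ₀ δ hmain (cell f N q F s) (fun n => ⌊f.eval (n : ℝ)⌋) (Pq q y)
    (lam F s) hne (fun p _ => ⟨lam_nn F s p, lam_le_one F s p⟩) hva
    (herr k δ hδ (by omega) (by
      have : 0 ≤ (B 2 / 1) ^ 2 := sq_nonneg _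
      linarith))
    (herr 2 1 one_pos (by omega) (by
      have : 0 ≤ (B k / δ) ^ 2 := sq_nonneg _
      linarith))
  exact hc

end Pool.Agent.Helper14.EP
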