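import Pool.Agent.Helper14.EP.CELLC

/-!
# EP: MINC, the characteristic function in the minor case
-/

set_option autoImplicit false

open Polynomial Filter Topology

namespace Pool.Agent.Helper14.EP

open Pool.Agent.Helper20.EP

theorem Pq_one (y : ℝ) : Pq 1 y = primesLE y := by
  unfold Pq primesLE
  rw [Finset.filter_filter]
  refine Finset.filter_congr fun p _ => ?_
  constructor
  · rintro ⟨h, _⟩
    exact h
  · intro h
    exact ⟨h, fun h1 => h.one_lt.ne' (Nat.dvd_one.1 h1)⟩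

/-- All primes of a set divide iff the product divides. -/
theorem dvd_prod_iff (Q : Finset ℕ) (hQ : ∀ p ∈ Q, p.Prime) (z : ℤ) :
    (∀ p ∈ Q, (p : ℤ) ∣ z) ↔ ((∏ p ∈ Q, p : ℕ) : ℤ) ∣ z := by
  have e : ∀ m : ℕ, (m : ℤ) ∣ z ↔ m ∣ z.natAbs := fun m => Int.natCast_dvd
  simp only [e]
  constructor
  · intro h
    exact Finset.prod_primes_dvd _ (fun p hp => (hQ p hp).prime) h
  · intro h p hp
    exact (Finset.dvd_prod_of_mem _ hp).trans h

/-- Powers of `y` when a large power of `y` is at most `M`. -/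
theorem rpow_aux (k K : ℕ) (c M y : ℝ) (hy : 1 ≤ y) (hK : y ^ K ≤ M) (hc : 0 ≤ c)
    (hk : (k : ℝ) ≤ K * c) : y ^ k ≤ M ^ c := by
  calc y ^ k = y ^ (k : ℝ) := (Real.rpow_natCast y k).symm
      _ ≤ y ^ ((K : ℝ) * c) := Real.rpow_le_rpow_of_exponent_le hy hk
      _ = (y ^ K) ^ c := by rw [Real.rpow_mul (by linarith), Real.rpow_natCast]
      _ ≤ M ^ c := Real.rpow_le_rpow (by positivity) hK hc

theorem minc (hDV : S_DIVA) (hE : S_EKU) : S_MINC := by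
  intro D hD1 t ε hε
  obtain ⟨c, M₁, hc0, hc1, hdiv⟩ := hDV D hD1
  obtain ⟨k, σ₀, δ, hσ, hδ, hmain⟩ := hE t ε hε
  set K : ℕ := ⌈2 * ((k : ℝ) + 2) / c⌉₊ with hKdef
  have hKc : 2 * ((k : ℝ) + 2) ≤ K * c := by
    have := Nat.le_ceil (2 * ((k : ℝ) + 2) / c)
    rw [div_le_iff₀ hc0] at this
    exact this
  refine ⟨K, max M₁ (max 1 (max ((2 ^ k / δ) ^ (2 / c)) (((2 : ℝ) ^ 2 / 1) ^ (2 / c)))),
    max σ₀ 2, ?_⟩
  intro f N q F T M y hfD hN1 hdat hM hy hyK hva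
  have hMM₁ : M₁ ≤ M := (le_max_left _ _).trans hM
  have hM1 : 1 ≤ M := ((le_max_left _ _).trans (le_max_right _ _)).trans hM
  have hMa : (2 ^ k / δ) ^ (2 / c) ≤ M :=
    (((le_max_left _ _).trans (le_max_right _ _)).trans (le_max_right _ _)).trans hM
  have hMb : ((2 : ℝ) ^ 2 / 1) ^ (2 / c) ≤ M :=
    (((le_max_right _ _).trans (le_max_right _ _)).trans (le_max_right _ _)).trans hM
  have hN0 : (1 : ℝ) ≤ N := by exact_mod_cast hN1
  have hPc : ((primesLE y).card : ℝ) ≤ y := card_primesLE (by linarith : (0 : ℝ) ≤ y)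
  have hcard : (((Finset.Icc 1 N).card : ℕ) : ℝ) = N := by simp
  have herr : ∀ (k₀ : ℕ) (δ₀ : ℝ), 0 < δ₀ → k₀ ≤ k + 2 → (2 ^ k₀ / δ₀) ^ (2 / c) ≤ M →
      ∀ Q ⊆ primesLE y, Q.card ≤ k₀ →
      |(((Finset.Icc 1 N).filter fun n : ℕ => ∀ p ∈ Q, (p : ℤ) ∣ ⌊f.eval (n : ℝ)⌋).card : ℝ) -
        (Finset.Icc 1 N).card * ∏ p ∈ Q, (1 : ℝ) / p| ≤
        δ₀ * (Finset.Icc 1 N).card / (1 + ((primesLE y).card : ℝ)) ^ k₀ := by
    intro k₀ δ₀ hδ₀ hk₀ hMδ Q hQ hQc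
    have hQp : ∀ p ∈ Q, p.Prime := by
      intro p hp
      have := hQ hp
      unfold primesLE at this
      exact (Finset.mem_filter.1 this).2
    have hQy : ∀ p ∈ Q, (p : ℝ) ≤ y := by
      intro p hp
      have := hQ hp
      rw [mem_primesLE (by linarith)] at this
      exact this.2
    have hk₀R : (k₀ : ℝ) ≤ k + 2 := by exact_mod_cast hk₀
    have hm1 : 1 ≤ ∏ p ∈ Q, p := by
      apply Nat.one_le_iff_ne_zero.2
      exact Finset.prod_ne_zero_iff.2 fun p hp => (hQp p hp).ne_zero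
    have hmM : ((∏ p ∈ Q, p : ℕ) : ℝ) ≤ M ^ c := by
      rw [Nat.cast_prod]
      refine (prod_le_pow Q y k₀ hy hQy hQc).trans ?_
      exact rpow_aux k₀ K c M y hy hyK hc0.le (by linarith)
    have hd := hdiv f N q F T M hfD hN1 hdat hMM₁ (∏ p ∈ Q, p) hm1 hmM
    have e1 : cnt N (fun n => ((∏ p ∈ Q, p : ℕ) : ℤ) ∣ ⌊f.eval (n : ℝ)⌋) =
        (((Finset.Icc 1 N).filter fun n : ℕ => ∀ p ∈ Q, (p : ℤ) ∣ ⌊f.eval (n : ℝ)⌋).card : ℝ) := by
      unfold cnt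
      have : (Finset.Icc 1 N).filter (fun n : ℕ => ((∏ p ∈ Q, p : ℕ) : ℤ) ∣ ⌊f.eval (n : ℝ)⌋) =
          (Finset.Icc 1 N).filter fun n : ℕ => ∀ p ∈ Q, (p : ℤ) ∣ ⌊f.eval (n : ℝ)⌋ := by
        ext n
        rw [Finset.mem_filter, Finset.mem_filter, dvd_prod_iff Q hQp]
      rw [← this]
      norm_cast
      apply congrArg
      ext n
      simp only [Finset.mem_filter]
    have e2 : ((Finset.Icc 1 N).card : ℝ) * ∏ p ∈ Q, (1 : ℝ) / p = N / ((∏ p ∈ Q, p : ℕ) : ℝ) := by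
      rw [hcard, Finset.prod_div_distrib, Finset.prod_const_one, Nat.cast_prod, mul_one_div]
    rw [e1] at hd
    rw [e2, hcard]
    refine hd.trans ?_
    have hP1 : (1 + ((primesLE y).card : ℝ)) ^ k₀ ≤ (2 * y) ^ k₀ :=
      pow_le_pow_left₀ (by positivity) (by linarith) _
    have hMpos : (0 : ℝ) < M := by linarith
    have hyk : y ^ k₀ ≤ M ^ (c / 2) := rpow_aux k₀ K (c / 2) M y hy hyK (by linarith) (by linarith)
    have h2k : 2 ^ k₀ ≤ δ₀ * M ^ (c / 2) := by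
      have h1 : ((2 ^ k₀ / δ₀) ^ (2 / c)) ^ (c / 2) ≤ M ^ (c / 2) :=
        Real.rpow_le_rpow (by positivity) hMδ (by linarith)
      rw [← Real.rpow_mul (by positivity)] at h1
      have e3 : 2 / c * (c / 2) = 1 := by field_simp
      rw [e3, Real.rpow_one, div_le_iff₀ hδ₀] at h1
      linarith
    rw [le_div_iff₀ (by positivity)]
    have h3 : (1 + ((primesLE y).card : ℝ)) ^ k₀ ≤ δ₀ * M ^ c := by
      calc (1 + ((primesLE y).card : ℝ)) ^ k₀ ≤ (2 * y) ^ k₀ := hP1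
        _ = 2 ^ k₀ * y ^ k₀ := by rw [mul_pow]
        _ ≤ (δ₀ * M ^ (c / 2)) * M ^ (c / 2) := by
            gcongr
        _ = δ₀ * M ^ c := by
            rw [mul_assoc, ← Real.rpow_add hMpos]
            norm_num
    calc (N : ℝ) * M ^ (-c) * (1 + ((primesLE y).card : ℝ)) ^ k₀
        ≤ (N : ℝ) * M ^ (-c) * (δ₀ * M ^ c) := by
          gcongr
      _ = δ₀ * N * (M ^ (-c) * M ^ c) := by ring
      _ = δ₀ * N := by
          rw [← Real.rpow_add hMpos]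
          norm_num
  have hne : (Finset.Icc 1 N).Nonempty := ⟨1, Finset.mem_Icc.2 ⟨le_rfl, hN1⟩⟩
  have hlam : ∀ p ∈ primesLE y, 0 ≤ (1 : ℝ) / p ∧ (1 : ℝ) / p ≤ 1 := by
    intro p hp
    have hp1 : p.Prime := by
      unfold primesLE at hp
      exact (Finset.mem_filter.1 hp).2
    refine ⟨by positivity, ?_⟩
    apply div_le_one_of_le₀ _ (Nat.cast_nonneg p)
    exact_mod_cast hp1.one_lt.le
  have hc := concl t ε k σ₀ δ hmain (Finset.Icc 1 N) (fun n => ⌊f.eval (n : ℝ)⌋) (primesLE y)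
    (fun p => (1 : ℝ) / p) hne hlam hva
    (herr k δ hδ (by omega) hMa) (herr 2 1 one_pos (by omega) hMb)
  have hZ : ∀ n : ℕ, ((primesLE y).filter fun p : ℕ => (p : ℤ) ∣ ⌊f.eval (n : ℝ)⌋).card =
      Zn f 1 y n := by
    intro n
    unfold Zn
    rw [Pq_one]
  simp only [hZ] at hc
  have hcardC : (((Finset.Icc 1 N).card : ℕ) : ℂ) = N := by simp
  rw [hcard, hcardC] at hc
  exact hc

end Pool.Agent.Helper14.EP
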