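import Pool.Agent.Helper14.EP.MINC

/-!
# EP: VAR, mean and variance are close
-/

set_option autoImplicit false

open Polynomial Filter Topology

namespace Pool.Agent.Helper14.EP

open Pool.Agent.Helper20.EP

theorem cnt_eq (N : ℕ) (P : ℕ → Prop) [DecidablePred P] :
    cnt N P = (((Finset.Icc 1 N).filter P).card : ℝ) := by
  unfold cnt
  norm_cast
  apply congrArg
  ext n
  simp only [Finset.mem_filter]

theorem rho_le (g : ℤ[X]) (p : ℕ) (hp : p.Prime) (h : g.map (Int.castRingHom (ZMod p)) ≠ 0) :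
    rho g p ≤ g.natDegree := by
  have := Fact.mk hp
  have hsub : ((Finset.range p).filter fun x : ℕ => (p : ℤ) ∣ g.eval (x : ℤ)).image
      (fun x : ℕ => (x : ZMod p)) ⊆ (g.map (Int.castRingHom (ZMod p))).roots.toFinset := by
    intro z hz
    rw [Finset.mem_image] at hz
    obtain ⟨x, hx, rfl⟩ := hz
    rw [Finset.mem_filter] at hx
    rw [Multiset.mem_toFinset, Polynomial.mem_roots h, Polynomial.IsRoot.def]
    have e : Polynomial.eval ((x : ℕ) : ZMod p) (g.map (Int.castRingHom (ZMod p))) =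
        ((g.eval (x : ℤ) : ℤ) : ZMod p) := by
      rw [Polynomial.eval_map]
      have := Polynomial.eval₂_at_apply (p := g) (Int.castRingHom (ZMod p)) (x : ℤ)
      simp
    rw [e]
    exact (ZMod.intCast_zmod_eq_zero_iff_dvd _ _).2 hx.2
  have hinj : Set.InjOn (fun x : ℕ => (x : ZMod p))
      ((Finset.range p).filter fun x : ℕ => (p : ℤ) ∣ g.eval (x : ℤ)) := by
    intro x hx y hy hxy
    have hx' : x < p := by
      have := Finset.mem_coe.1 hx
      exact Finset.mem_range.1 (Finset.mem_filter.1 this).1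
    have hy' : y < p := by
      have := Finset.mem_coe.1 hy
      exact Finset.mem_range.1 (Finset.mem_filter.1 this).1
    have := (ZMod.natCast_eq_natCast_iff' x y p).1 hxy
    rwa [Nat.mod_eq_of_lt hx', Nat.mod_eq_of_lt hy'] at this
  unfold rho
  rw [← Finset.card_image_of_injOn hinj]
  calc _ ≤ ((g.map (Int.castRingHom (ZMod p))).roots.toFinset).card := Finset.card_le_card hsub
    _ ≤ Multiset.card (g.map (Int.castRingHom (ZMod p))).roots := Multiset.toFinset_card_le _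
    _ ≤ (g.map (Int.castRingHom (ZMod p))).natDegree := Polynomial.card_roots' _
    _ ≤ g.natDegree := Polynomial.natDegree_map_le

theorem dvd_coeff (g : ℤ[X]) (p : ℕ) (h : g.map (Int.castRingHom (ZMod p)) = 0) (j : ℕ) :
    (p : ℤ) ∣ g.coeff j := by
  have h1 : (g.map (Int.castRingHom (ZMod p))).coeff j = 0 := by rw [h]; simp
  rw [Polynomial.coeff_map] at h1
  exact (ZMod.intCast_zmod_eq_zero_iff_dvd _ _).1 (by simpa using h1)

theorem sum_inv_sq (P : Finset ℕ) (h : ∀ p ∈ P, 2 ≤ p) : ∑ p ∈ P, ((p : ℝ) ^ 2)⁻¹ ≤ 1 := by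
  obtain ⟨n, hn⟩ : ∃ n : ℕ, ∀ p ∈ P, p ≤ n := ⟨P.sup id, fun p hp => Finset.le_sup (f := id) hp⟩
  have hsub : P ⊆ Finset.Ioc 1 (n + 1) := by
    intro p hp
    rw [Finset.mem_Ioc]
    exact ⟨h p hp, (hn p hp).trans (Nat.le_succ n)⟩
  calc ∑ p ∈ P, ((p : ℝ) ^ 2)⁻¹ ≤ ∑ p ∈ Finset.Ioc 1 (n + 1), ((p : ℝ) ^ 2)⁻¹ :=
        Finset.sum_le_sum_of_subset_of_nonneg hsub fun _ _ _ => by positivity
    _ ≤ ((1 : ℕ) : ℝ)⁻¹ - ((n + 1 : ℕ) : ℝ)⁻¹ :=
        sum_Ioc_inv_sq_le_sub one_ne_zero (by omega)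
    _ ≤ 1 := by
        have : (0 : ℝ) ≤ ((n + 1 : ℕ) : ℝ)⁻¹ := by positivity
        simp only [Nat.cast_one, inv_one]
        linarith

/-- Few large primes divide a number. -/
theorem card_large (b : ℕ) (c M : ℝ) (hb : b ≠ 0) (hc : 0 < c) (hM : 1 < M) (hbM : (b : ℝ) ≤ M ^ 2)
    (P : Finset ℕ) (hP : P ⊆ b.primeFactors) (hl : ∀ p ∈ P, M ^ c < p) : (P.card : ℝ) ≤ 2 / c := by
  have h1 : ∏ p ∈ P, p ≤ b := by
    apply Nat.le_of_dvd (Nat.pos_of_ne_zero hb)
    apply Finset.prod_primes_dvd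
    · intro p hp
      exact (Nat.prime_of_mem_primeFactors (hP hp)).prime
    · intro p hp
      exact Nat.dvd_of_mem_primeFactors (hP hp)
  have h2 : (M ^ c) ^ P.card ≤ ∏ p ∈ P, (p : ℝ) := by
    rw [← Finset.prod_const]
    apply Finset.prod_le_prod
    · intro p _
      positivity
    · intro p hp
      exact (hl p hp).le
  have h3 : (M ^ c) ^ P.card ≤ M ^ (2 : ℝ) := by
    calc (M ^ c) ^ P.card ≤ ∏ p ∈ P, (p : ℝ) := h2
      _ = ((∏ p ∈ P, p : ℕ) : ℝ) := by rw [Nat.cast_prod]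
      _ ≤ (b : ℝ) := by exact_mod_cast h1
      _ ≤ M ^ 2 := hbM
      _ = M ^ (2 : ℝ) := by
          rw [← Real.rpow_natCast]
          norm_num
  rw [← Real.rpow_natCast, ← Real.rpow_mul (by linarith)] at h3
  have h4 := (Real.rpow_le_rpow_left_iff hM).1 h3
  rw [le_div_iff₀ hc]
  linarith

theorem ll_large (B : ℝ) : ∃ N₀ : ℕ, ∀ N : ℕ, N₀ ≤ N → B ≤ ll N := by
  have h : Tendsto (fun N : ℕ => ll N) atTop atTop := by
    unfold ll
    exact (Real.tendsto_log_atTop.comp Real.tendsto_log_atTop).comp tendsto_natCast_atTop_atTop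
  exact Filter.eventually_atTop.1 (h.eventually_ge_atTop B)

theorem var (hDV : S_DIVA) (hO : S_OMR) (hS : S_SCALE) : S_VAR := by
  intro f hf ε hε
  obtain ⟨c, M₁, hc0, hc1, hdiv⟩ := hDV f.natDegree hf
  obtain ⟨C0, N₁, hC0, hsc⟩ := hS f hf
  obtain ⟨N₂, hom⟩ := hO 1 one_pos
  set D : ℕ := f.natDegree with hD
  obtain ⟨N₃, hll⟩ := ll_large (max (max 1 (16 / ε ^ 4)) (((D : ℝ) ^ 2 + 2 / c) * 2 / ε))
  refine ⟨max M₁ (max 2 C0), max (max N₁ N₂) (max N₃ ⌈C0⌉₊), ?_⟩
  intro N q F T M y hN hdat hM hMN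
  have hN₁ : N₁ ≤ N := ((le_max_left _ _).trans (le_max_left _ _)).trans hN
  have hN₂ : N₂ ≤ N := ((le_max_right _ _).trans (le_max_left _ _)).trans hN
  have hN₃ : N₃ ≤ N := ((le_max_left _ _).trans (le_max_right _ _)).trans hN
  have hMM₁ : M₁ ≤ M := (le_max_left _ _).trans hM
  have hM2 : 2 ≤ M := ((le_max_left _ _).trans (le_max_right _ _)).trans hM
  have hMC : C0 ≤ M := ((le_max_right _ _).trans (le_max_right _ _)).trans hM
  have hNR : (4 : ℝ) ≤ N := by nlinarith
  have hN1 : 1 ≤ N := by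
    have : (1 : ℝ) ≤ N := by linarith
    exact_mod_cast this
  have hL := hll N hN₃
  set L : ℝ := ll N with hLdef
  have hL1 : 1 ≤ L := ((le_max_left _ _).trans (le_max_left _ _)).trans hL
  have hL2 : 16 / ε ^ 4 ≤ L := ((le_max_right _ _).trans (le_max_left _ _)).trans hL
  have hL3 : ((D : ℝ) ^ 2 + 2 / c) * 2 / ε ≤ L := (le_max_right _ _).trans hL
  obtain ⟨⟨R, hR⟩, -⟩ := hsc N q F T M hN₁ hdat hMN
  set b : ℕ := (F.coeff D).natAbs with hb
  have hbabs : (b : ℝ) = |(F.coeff D : ℝ)| := by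
    rw [hb, Nat.cast_natAbs, Int.cast_abs]
  have hb0 : b ≠ 0 := by
    intro h0
    have h1 := hR.low
    have h2 : |(F.coeff D : ℝ)| = 0 := by rw [← hbabs, h0]; simp
    rw [h2] at h1
    simp only [mul_zero, zero_mul] at h1
    linarith
  have hbM : (b : ℝ) ≤ C0 * M := by
    have h1 := hR.up D
    rw [← hbabs] at h1
    have h2 : 1 ≤ R ^ D := one_le_pow₀ hR.hR
    have h3 : (0 : ℝ) ≤ b := Nat.cast_nonneg b
    nlinarith
  have hbM2 : (b : ℝ) ≤ M ^ 2 := by nlinarith
  have hbN : b ≤ N ^ 2 := by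
    have : (b : ℝ) ≤ (N : ℝ) ^ 2 := by nlinarith
    exact_mod_cast this
  have homr : ∑ p ∈ b.primeFactors, (1 : ℝ) / p ≤ 1 * Real.sqrt L :=
    hom N hN₂ b (Nat.one_le_iff_ne_zero.2 hb0) hbN
  set B : Finset ℕ := b.primeFactors.filter fun p : ℕ => (p : ℝ) ≤ M ^ c with hB
  set X : ℕ → ℝ := fun n => ((B.filter fun p : ℕ => (p : ℤ) ∣ ⌊f.eval (n : ℝ)⌋).card : ℝ) with hX
  have hMpos : 0 < M := by linarith
  have hMc : 0 < M ^ c := Real.rpow_pos_of_pos hMpos c
  -- the deterministic estimate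
  have hdet : ∀ n : ℕ, |va F q y (sn f q F n) - mu F q y (sn f q F n)| ≤
      (D : ℝ) ^ 2 + 2 / c + X n := by
    intro n
    set s : ℤ := sn f q F n with hs
    have e1 : mu F q y s - va F q y s = ∑ p ∈ Pq q y, lam F s p ^ 2 := by
      unfold mu va
      rw [← Finset.sum_sub_distrib]
      refine Finset.sum_congr rfl fun p _ => ?_
      ring
    have e2 : |va F q y s - mu F q y s| = ∑ p ∈ Pq q y, lam F s p ^ 2 := by
      rw [abs_sub_comm, e1, abs_of_nonneg]
      exact Finset.sum_nonneg fun p _ => sq_nonneg _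
    rw [e2]
    have hterm : ∀ p ∈ Pq q y, lam F s p ^ 2 ≤ (D : ℝ) ^ 2 * ((p : ℝ) ^ 2)⁻¹ +
        (if p ∣ b ∧ (p : ℤ) ∣ ⌊f.eval (n : ℝ)⌋ then 1 else 0) := by
      intro p hp
      have hpp : p.Prime ∧ ¬ p ∣ q := by
        unfold Pq primesLE at hp
        simp only [Finset.mem_filter] at hp
        exact ⟨hp.1.2, hp.2⟩
      by_cases hmap : (F - C s).map (Int.castRingHom (ZMod p)) = 0
      · have hcf := dvd_coeff _ p hmap
        have hpb : p ∣ b := by
          have h1 := hcf D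
          rw [Polynomial.coeff_sub, Polynomial.coeff_C, if_neg (by omega), sub_zero] at h1
          rw [hb]
          exact Int.natCast_dvd.1 h1
        have hps : (p : ℤ) ∣ s := by
          have h1 := hcf 0
          rw [Polynomial.coeff_sub, Polynomial.coeff_C, if_pos rfl, hdat.c0, zero_sub,
            dvd_neg] at h1
          exact h1
        have hpF : (p : ℤ) ∣ F.eval (n : ℤ) := by
          rw [Polynomial.eval_eq_sum_range]
          refine Finset.dvd_sum fun j _ => ?_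
          rcases Nat.eq_zero_or_pos j with rfl | hj
          · rw [hdat.c0]
            simp
          · have h1 := hcf j
            rw [Polynomial.coeff_sub, Polynomial.coeff_C, if_neg (by omega), sub_zero] at h1
            exact Dvd.dvd.mul_right h1 _
        have hpf : (p : ℤ) ∣ ⌊f.eval (n : ℝ)⌋ := by
          have h1 : (p : ℤ) ∣ q * ⌊f.eval (n : ℝ)⌋ := by
            have h2 : (q : ℤ) * ⌊f.eval (n : ℝ)⌋ = F.eval (n : ℤ) - s := by
              rw [hs]
              unfold sn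
              ring
            rw [h2]
            exact dvd_sub hpF hps
          rcases (Nat.prime_iff_prime_int.1 hpp.1).dvd_or_dvd h1 with h3 | h3
          · exact absurd (Int.natCast_dvd_natCast.1 h3) hpp.2
          · exact h3
        rw [if_pos ⟨hpb, hpf⟩]
        have h5 := lam_nn F s p
        have h6 := lam_le_one F s p
        have h7 : 0 ≤ (D : ℝ) ^ 2 * ((p : ℝ) ^ 2)⁻¹ := by positivity
        nlinarith
      · have h1 := rho_le _ p hpp.1 hmap
        have h2 : (F - C s).natDegree ≤ D := by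
          refine (Polynomial.natDegree_sub_le _ _).trans ?_
          rw [Polynomial.natDegree_C]
          exact max_le hdat.deg (Nat.zero_le _)
        have h3 : (rho (F - C s) p : ℝ) ≤ D := by exact_mod_cast h1.trans h2
        have h4 : lam F s p ^ 2 ≤ (D : ℝ) ^ 2 * ((p : ℝ) ^ 2)⁻¹ := by
          unfold lam
          rw [div_pow, div_eq_mul_inv]
          gcongr
        have h5 : (0 : ℝ) ≤ if p ∣ b ∧ (p : ℤ) ∣ ⌊f.eval (n : ℝ)⌋ then 1 else 0 := by
          split_ifs <;> norm_num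
        linarith
    refine (Finset.sum_le_sum hterm).trans ?_
    rw [Finset.sum_add_distrib, ← Finset.mul_sum, Finset.sum_boole]
    have h2le : ∀ p ∈ Pq q y, 2 ≤ p := by
      intro p hp
      unfold Pq primesLE at hp
      simp only [Finset.mem_filter] at hp
      exact hp.1.2.two_le
    have h1 := sum_inv_sq (Pq q y) h2le
    have hsub : (Pq q y).filter (fun p => p ∣ b ∧ (p : ℤ) ∣ ⌊f.eval (n : ℝ)⌋) ⊆
        (b.primeFactors.filter fun p : ℕ => M ^ c < p) ∪
          (B.filter fun p : ℕ => (p : ℤ) ∣ ⌊f.eval (n : ℝ)⌋) := by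
      intro p hp
      rw [Finset.mem_filter] at hp
      have hpp : p.Prime := by
        have := hp.1
        unfold Pq primesLE at this
        simp only [Finset.mem_filter] at this
        exact this.1.2
      have hpf : p ∈ b.primeFactors := Nat.mem_primeFactors.2 ⟨hpp, hp.2.1, hb0⟩
      rw [Finset.mem_union, Finset.mem_filter, Finset.mem_filter, hB, Finset.mem_filter]
      rcases lt_or_ge (M ^ c) (p : ℝ) with h | h
      · exact Or.inl ⟨hpf, h⟩
      · exact Or.inr ⟨⟨hpf, h⟩, hp.2.2⟩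
    have hcd : (((Pq q y).filter (fun p => p ∣ b ∧ (p : ℤ) ∣ ⌊f.eval (n : ℝ)⌋)).card : ℝ) ≤
        2 / c + X n := by
      have h2 := (Finset.card_le_card hsub).trans (Finset.card_union_le _ _)
      have h3 := card_large b c M hb0 hc0 (by linarith) hbM2
        (b.primeFactors.filter fun p : ℕ => M ^ c < p) (Finset.filter_subset _ _)
        (fun p hp => (Finset.mem_filter.1 hp).2)
      have h4 : (((Pq q y).filter (fun p => p ∣ b ∧ (p : ℤ) ∣ ⌊f.eval (n : ℝ)⌋)).card : ℝ) ≤
          ((b.primeFactors.filter fun p : ℕ => M ^ c < p).card : ℝ) + X n := by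
        simp only [hX]
        exact_mod_cast h2
      linarith
    have hD2 : (0 : ℝ) ≤ (D : ℝ) ^ 2 := by positivity
    nlinarith
  -- the expectation
  have hexp : ∑ n ∈ Finset.Icc 1 N, X n ≤ N * (Real.sqrt L + 1) := by
    have e1 : ∑ n ∈ Finset.Icc 1 N, X n =
        ∑ p ∈ B, cnt N (fun n => (p : ℤ) ∣ ⌊f.eval (n : ℝ)⌋) := by
      simp only [hX, cnt_eq]
      simp only [← Finset.sum_boole]
      rw [Finset.sum_comm]
    rw [e1]
    have h1 : ∀ p ∈ B, cnt N (fun n => (p : ℤ) ∣ ⌊f.eval (n : ℝ)⌋) ≤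
        N * ((1 : ℝ) / p) + N * M ^ (-c) := by
      intro p hp
      rw [hB, Finset.mem_filter] at hp
      have hp1 : 1 ≤ p := (Nat.prime_of_mem_primeFactors hp.1).one_lt.le
      have := abs_le.1 (hdiv f N q F T M rfl hN1 hdat hMM₁ p hp1 hp.2)
      rw [mul_one_div]
      linarith [this.2]
    refine (Finset.sum_le_sum h1).trans ?_
    rw [Finset.sum_add_distrib, ← Finset.mul_sum, Finset.sum_const, nsmul_eq_mul]
    have h2 : ∑ p ∈ B, (1 : ℝ) / p ≤ Real.sqrt L := by
      calc ∑ p ∈ B, (1 : ℝ) / p ≤ ∑ p ∈ b.primeFactors, (1 : ℝ) / p :=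
            Finset.sum_le_sum_of_subset_of_nonneg (Finset.filter_subset _ _)
              fun _ _ _ => by positivity
        _ ≤ 1 * Real.sqrt L := homr
        _ = Real.sqrt L := one_mul _
    have h3 : (B.card : ℝ) ≤ M ^ c := by
      refine le_trans ?_ (card_primesLE hMc.le)
      have : B ⊆ primesLE (M ^ c) := by
        intro p hp
        rw [hB, Finset.mem_filter] at hp
        rw [mem_primesLE hMc.le]
        exact ⟨Nat.prime_of_mem_primeFactors hp.1, hp.2⟩
      exact_mod_cast Finset.card_le_card this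
    have h4 : (B.card : ℝ) * M ^ (-c) ≤ 1 := by
      rw [Real.rpow_neg hMpos.le, ← div_eq_mul_inv, div_le_one hMc]
      exact h3
    have hNn : (0 : ℝ) ≤ N := Nat.cast_nonneg N
    calc (N : ℝ) * ∑ p ∈ B, (1 : ℝ) / p + B.card * (N * M ^ (-c))
        = N * ∑ p ∈ B, (1 : ℝ) / p + N * (B.card * M ^ (-c)) := by ring
      _ ≤ N * Real.sqrt L + N * 1 := by gcongr
      _ = N * (Real.sqrt L + 1) := by ring
  -- Markov
  set Z : Finset ℕ := (Finset.Icc 1 N).filter fun n => ε / 2 * L < X n with hZ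
  have hcz : cnt N (fun n => ε * L < |va F q y (sn f q F n) - mu F q y (sn f q F n)|) ≤
      (Z.card : ℝ) := by
    unfold cnt
    have : (Finset.Icc 1 N).filter (fun n => ε * L <
        |va F q y (sn f q F n) - mu F q y (sn f q F n)|) ⊆ Z := by
      intro n hn
      rw [Finset.mem_filter] at hn
      rw [hZ, Finset.mem_filter]
      refine ⟨hn.1, ?_⟩
      have h1 := hdet n
      have h2 := hn.2
      have h3 : ((D : ℝ) ^ 2 + 2 / c) ≤ ε / 2 * L := by
        rw [div_le_iff₀ hε] at hL3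
        linarith
      linarith
    have h2 := Finset.card_le_card this
    refine le_trans ?_ (Nat.cast_le.2 h2)
    norm_cast
  refine hcz.trans ?_
  have hmk : (Z.card : ℝ) * (ε / 2 * L) ≤ N * (Real.sqrt L + 1) := by
    calc (Z.card : ℝ) * (ε / 2 * L) = ∑ _n ∈ Z, ε / 2 * L := by
          rw [Finset.sum_const, nsmul_eq_mul]
      _ ≤ ∑ n ∈ Z, X n := Finset.sum_le_sum fun n hn => (Finset.mem_filter.1 hn).2.le
      _ ≤ ∑ n ∈ Finset.Icc 1 N, X n :=
          Finset.sum_le_sum_of_subset_of_nonneg (Finset.filter_subset _ _)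
            fun _ _ _ => by simp only [hX]; positivity
      _ ≤ N * (Real.sqrt L + 1) := hexp
  have hsq : Real.sqrt L + 1 ≤ ε ^ 2 / 2 * L := by
    have hL0 : 0 ≤ L := by linarith
    have h1 : 1 ≤ Real.sqrt L := by
      rw [Real.one_le_sqrt]
      exact hL1
    have h2 : 4 / ε ^ 2 ≤ Real.sqrt L := by
      apply Real.le_sqrt_of_sq_le
      have : (4 / ε ^ 2) ^ 2 = 16 / ε ^ 4 := by
        rw [div_pow]
        ring
      rw [this]
      exact hL2
    have h3 : Real.sqrt L * Real.sqrt L = L := Real.mul_self_sqrt hL0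
    rw [div_le_iff₀ (by positivity)] at h2
    nlinarith
  have hfin : (Z.card : ℝ) * (ε / 2 * L) ≤ (ε * N) * (ε / 2 * L) := by
    calc (Z.card : ℝ) * (ε / 2 * L) ≤ N * (Real.sqrt L + 1) := hmk
      _ ≤ N * (ε ^ 2 / 2 * L) := by gcongr
      _ = (ε * N) * (ε / 2 * L) := by ring
  exact le_of_mul_le_mul_right hfin (by positivity)

end Pool.Agent.Helper14.EP
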